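import Pool.Agent.S10129

/-! MP_ca9ca1_co: infinite `k`-abelian rich words exist for every `k`. -/

namespace Pool.Agent.Results.MP_ca9ca1_co.KAbRich

open List

/-- The number of occurrences of `x` as a factor of `u`, i.e. the number of factorisations
`u = p ++ x ++ s`. -/
noncomputable def occ {A : Type*} (x u : List A) : ℕ :=
  {q : List A × List A | u = q.1 ++ x ++ q.2}.ncard

/-- `k`-abelian equivalence of words. -/
def KEquiv {A : Type*} (k : ℕ) (u v : List A) : Prop :=
  ∀ x : List A, x.length ≤ k → occ x u = occ x v

/-- `k`-abelian equivalence as a setoid. -/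
def kSetoid (A : Type*) (k : ℕ) : Setoid (List A) where
  r := KEquiv k
  iseqv := ⟨fun _ _ _ => rfl, fun h x hx => (h x hx).symm,
    fun h h' x hx => (h x hx).trans (h' x hx)⟩

/-- `k`-abelian palindromes. -/
def KPal {A : Type*} (k : ℕ) (u : List A) : Prop := KEquiv k u u.reverse

/-- The number of `k`-abelian classes that contain a `k`-abelian palindromic factor of `u`. -/
noncomputable def kpal {A : Type*} (k : ℕ) (u : List A) : ℕ :=
  {c : Quotient (kSetoid A k) | ∃ v : List A, v <:+: u ∧ KPal k v ∧
    c = Quotient.mk (kSetoid A k) v}.ncard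

/-- The factor of length `n` of `w` that starts at position `i`. -/
def seg {A : Type*} (w : ℕ → A) (i n : ℕ) : List A := (List.range n).map (fun t => w (i + t))

section
variable {A : Type*}

theorem occ_reverse (x u : List A) : occ x u.reverse = occ x.reverse u := by
  unfold occ
  rw [← Set.ncard_image_of_injective {q : List A × List A | u = q.1 ++ x.reverse ++ q.2}
    (f := fun q => (q.2.reverse, q.1.reverse))
    (by
      rintro ⟨a, b⟩ ⟨c, d⟩ h
      simp only [Prod.mk.injEq, List.reverse_inj] at h
      exact Prod.ext h.2 h.1)]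
  congr 1
  ext ⟨p, s⟩
  simp only [Set.mem_ofPred_eq, Set.mem_image, Prod.mk.injEq, Prod.exists]
  constructor
  · intro h
    refine ⟨s.reverse, p.reverse, ?_, by simp, by simp⟩
    have := congrArg List.reverse h
    simpa using this
  · rintro ⟨a, b, h, rfl, rfl⟩
    rw [h]; simp

theorem occ_single [DecidableEq A] (c : A) (u : List A) : occ [c] u = u.count c := by
  induction u with
  | nil =>
    unfold occ
    have : {q : List A × List A | [] = q.1 ++ [c] ++ q.2} = ∅ := by
      ext ⟨p, s⟩; simp
    rw [this]; simp
  | cons d u ih =>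
    have key : {q : List A × List A | d :: u = q.1 ++ [c] ++ q.2} =
        (fun q : List A × List A => (d :: q.1, q.2)) '' {q | u = q.1 ++ [c] ++ q.2} ∪
          {q | d = c ∧ q = ([], u)} := by
      ext ⟨p, s⟩
      simp only [Set.mem_ofPred_eq, Set.mem_union, Set.mem_image, Prod.mk.injEq, Prod.exists]
      constructor
      · intro h
        cases p with
        | nil =>
          right
          simp only [List.nil_append, List.singleton_append, List.cons.injEq] at h
          exact ⟨h.1, rfl, h.2.symm⟩
        | cons e p =>
          left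
          simp only [List.cons_append, List.cons.injEq] at h
          exact ⟨p, s, h.2, by rw [h.1], rfl⟩
      · rintro (⟨a, b, h, rfl, rfl⟩ | ⟨rfl, rfl, rfl⟩)
        · rw [h]; simp
        · simp
    have hfin : {q : List A × List A | u = q.1 ++ [c] ++ q.2}.Finite := by
      apply Set.Finite.subset (s := (fun x : List A × List A => x) ''
        ({v | v ∈ u.sublists} ×ˢ {v | v ∈ u.sublists}))
      · apply Set.Finite.image
        exact (List.finite_toSet _).prod (List.finite_toSet _)
      · rintro ⟨p, s⟩ h
        simp only [Set.mem_ofPred_eq] at h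
        refine ⟨(p, s), ⟨?_, ?_⟩, rfl⟩
        · simp only [Set.mem_ofPred_eq, List.mem_sublists]
          rw [h, List.append_assoc]; exact List.sublist_append_left _ _
        · simp only [Set.mem_ofPred_eq, List.mem_sublists]
          rw [h]; exact List.sublist_append_right _ _
    unfold occ at ih ⊢
    have hinj : Function.Injective (fun q : List A × List A => (d :: q.1, q.2)) := by
      rintro ⟨a, b⟩ ⟨a', b'⟩ h
      simp only [Prod.mk.injEq, List.cons.injEq, true_and] at h
      exact Prod.ext h.1 h.2
    rw [key, Set.ncard_union_eq _ (hfin.image _)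
      (Set.Finite.subset (Set.finite_singleton ([], u)) (fun q h => h.2)), Set.ncard_image_of_injective _ hinj, ih,
      List.count_cons]
    · by_cases h : d = c
      · have : {q : List A × List A | d = c ∧ q = ([], u)} = {([], u)} := by
          ext q; simp [h]
        rw [this]; simp [h]
      · have : {q : List A × List A | d = c ∧ q = ([], u)} = ∅ := by
          ext q; simp [h]
        rw [this]; simp [h]
    · rw [Set.disjoint_left]
      rintro ⟨p, s⟩ ⟨q, _, hq⟩ ⟨_, hq'⟩
      rw [← hq] at hq'
      simp at hq'

/-- Separate the letters of a word by `k` blanks. -/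
def F (k : ℕ) : List A → List (Option A)
  | [] => List.replicate k none
  | a :: l => List.replicate k none ++ some a :: F k l

theorem F_split (k : ℕ) : ∀ (l : List A) (p s : List (Option A)) (a : A),
    F k l = p ++ some a :: s → ∃ l1 l2, p = F k l1 ∧ s = F k l2 := by
  intro l
  induction l with
  | nil =>
    intro p s a h
    have : some a ∈ F k ([] : List A) := by rw [h]; simp
    simp [F] at this
  | cons b l ih =>
    intro p s a h
    rw [F, List.append_eq_append_iff] at h
    rcases h with ⟨t, h1, h2⟩ | ⟨t, h1, h2⟩
    · cases t with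
      | nil =>
        simp only [List.nil_append, List.cons.injEq] at h2
        refine ⟨[], l, ?_, h2.2.symm⟩
        rw [h1]; simp [F]
      | cons c t =>
        simp only [List.cons_append, List.cons.injEq] at h2
        obtain ⟨l1, l2, e1, e2⟩ := ih t s a h2.2
        refine ⟨b :: l1, l2, ?_, e2⟩
        rw [h1, F, e1, ← h2.1]
    · cases t with
      | nil =>
        simp only [List.nil_append, List.cons.injEq] at h2
        refine ⟨[], l, ?_, h2.2⟩
        rw [List.append_nil] at h1
        rw [F, h1]
      | cons c t =>
        exfalso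
        simp only [List.cons_append, List.cons.injEq] at h2
        have : some a ∈ List.replicate k (none : Option A) := by rw [h1, h2.1]; simp
        simp at this

theorem F_prefix (k : ℕ) (l : List A) : List.replicate k none <+: F k l := by
  cases l with
  | nil => exact List.prefix_refl _
  | cons a l => exact List.prefix_append _ _

theorem F_suffix (k : ℕ) (l : List A) : List.replicate k none <:+ F k l := by
  induction l with
  | nil => exact List.suffix_refl _
  | cons a l ih =>
    rw [F]
    exact ih.trans ((List.suffix_cons _ _).trans (List.suffix_append _ _))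

theorem rep_prefix {k j : ℕ} (h : j ≤ k) {s : List (Option A)}
    (hs : List.replicate k none <+: s) : ∃ t, s = List.replicate j none ++ t := by
  obtain ⟨t, rfl⟩ := hs
  refine ⟨List.replicate (k - j) none ++ t, ?_⟩
  rw [← List.append_assoc, ← List.replicate_add]
  congr 2; omega

theorem rep_suffix {k j : ℕ} (h : j ≤ k) {s : List (Option A)}
    (hs : List.replicate k none <:+ s) : ∃ t, s = t ++ List.replicate j none := by
  obtain ⟨t, rfl⟩ := hs
  refine ⟨t ++ List.replicate (k - j) none, ?_⟩
  rw [List.append_assoc, ← List.replicate_add]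
  congr 2; omega

/-- Occurrences of a word with exactly one letter. -/
theorem occ_one (k j l : ℕ) (a : A) (u : List A) (hj : j ≤ k) (hl : l ≤ k) :
    occ (List.replicate j none ++ some a :: List.replicate l none) (F k u) =
      occ [some a] (F k u) := by
  unfold occ
  rw [← Set.ncard_image_of_injective
    {q : List (Option A) × List (Option A) | F k u =
      q.1 ++ (List.replicate j none ++ some a :: List.replicate l none) ++ q.2}
    (f := fun q => (q.1 ++ List.replicate j none, List.replicate l none ++ q.2))
    (by
      rintro ⟨a, b⟩ ⟨c, d⟩ h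
      simp only [Prod.mk.injEq, List.append_cancel_right_eq, List.append_cancel_left_eq] at h
      exact Prod.ext h.1 h.2)]
  congr 1
  ext ⟨p, s⟩
  simp only [Set.mem_ofPred_eq, Set.mem_image, Prod.mk.injEq, Prod.exists]
  constructor
  · rintro ⟨p', s', h, rfl, rfl⟩
    rw [h]; simp
  · intro h
    have h' : F k u = p ++ some a :: s := by rw [h]; simp
    obtain ⟨l1, l2, h1, h2⟩ := F_split k u p s a h'
    obtain ⟨t1, ht1⟩ := rep_suffix hj (F_suffix k l1)
    obtain ⟨t2, ht2⟩ := rep_prefix hl (F_prefix k l2)
    refine ⟨t1, t2, ?_, ?_, ?_⟩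
    · rw [h', h1, h2, ht1, ht2]; simp
    · rw [h1, ht1]
    · rw [h2, ht2]

/-- A word with two letters at distance at most `k` does not occur. -/
theorem occ_two (k l : ℕ) (a b : A) (x1 x2 : List (Option A)) (u : List A) (hl : l < k) :
    occ (x1 ++ some a :: (List.replicate l none ++ some b :: x2)) (F k u) = 0 := by
  unfold occ
  have : {q : List (Option A) × List (Option A) | F k u =
      q.1 ++ (x1 ++ some a :: (List.replicate l none ++ some b :: x2)) ++ q.2} = ∅ := by
    ext ⟨p, s⟩
    simp only [Set.mem_ofPred_eq, Set.mem_empty_iff_false, iff_false]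
    intro h
    have h' : F k u = (p ++ x1) ++ some a :: (List.replicate l none ++ some b :: x2 ++ s) := by
      rw [h]; simp
    obtain ⟨l1, l2, _, h2⟩ := F_split k u _ _ a h'
    obtain ⟨t, ht⟩ := rep_prefix (j := l + 1) (by omega) (F_prefix k l2)
    rw [← h2, List.replicate_succ'] at ht
    simp only [List.append_assoc, List.append_cancel_left_eq, List.cons_append,
      List.nil_append, List.cons.injEq] at ht
    simp at ht
  rw [this]; simp

theorem decomp (x : List (Option A)) : x = List.replicate x.length none ∨
    ∃ (j : ℕ) (a : A) (y : List (Option A)), x = List.replicate j none ++ some a :: y := by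
  induction x with
  | nil => left; rfl
  | cons c x ih =>
    cases c with
    | some a => right; exact ⟨0, a, x, rfl⟩
    | none =>
      rcases ih with h | ⟨j, a, y, h⟩
      · left
        rw [List.length_cons, List.replicate_succ, ← h]
      · right
        refine ⟨j + 1, a, y, ?_⟩
        rw [List.replicate_succ, List.cons_append, ← h]

theorem kpal_F (k : ℕ) (u : List A) : KPal k (F k u) := by
  intro x hx
  rw [occ_reverse]
  rcases decomp x with h | ⟨j, a, y, h⟩
  · rw [h]; simp
  · rcases decomp y with h' | ⟨l, b, z, h'⟩
    · rw [h'] at h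
      have hlen : j + (y.length + 1) ≤ k := by
        have := congrArg List.length h
        simp at this
        omega
      rw [h]
      rw [occ_one k j y.length a u (by omega) (by omega)]
      have : (List.replicate j none ++ some a :: List.replicate y.length none).reverse =
          List.replicate y.length none ++ some a :: List.replicate j none := by simp
      rw [this, occ_one k y.length j a u (by omega) (by omega)]
    · have hlen : j + (l + 1 + (z.length + 1)) ≤ k := by
        have := congrArg List.length h
        have h2 := congrArg List.length h'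
        simp at this h2
        omega
      rw [h', ] at h
      rw [h, occ_two k l a b _ z u (by omega)]
      have : (List.replicate j none ++ some a :: (List.replicate l none ++ some b :: z)).reverse =
          z.reverse ++ some b :: (List.replicate l none ++ some a :: List.replicate j none) := by
        simp
      rw [this, occ_two k l b a _ _ u (by omega)]

theorem occ_F [DecidableEq A] (k : ℕ) (u : List A) (a : A) :
    occ [some a] (F k u) = u.count a := by
  have h1 : ∀ v : List (Option A), occ [some a] v = v.countP (fun x => decide (x = some a)) := by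
    intro v
    exact (occ_single (some a) v).trans rfl
  rw [h1]
  induction u with
  | nil => simp [F, List.countP_replicate]
  | cons b l ih =>
    rw [F, List.countP_append, List.countP_cons, ih, List.count_cons]
    simp [List.countP_replicate]

theorem seg_add (w : ℕ → A) (i m n : ℕ) : seg w i (m + n) = seg w i m ++ seg w (i + m) n := by
  unfold seg
  rw [List.range_add, List.map_append, List.map_map]
  congr 1
  apply List.map_congr_left
  intro t _
  simp [add_assoc]

theorem seg_infix (w : ℕ → A) {i n i' n' : ℕ} (h1 : i ≤ i') (h2 : i' + n' ≤ i + n) :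
    seg w i' n' <:+: seg w i n := by
  have e : n = (i' - i) + n' + (n - n' - (i' - i)) := by omega
  rw [e, seg_add, seg_add]
  have : i + (i' - i) = i' := by omega
  rw [this]
  exact ⟨_, _, rfl⟩

theorem F_append (k : ℕ) (l : List A) (a : A) :
    F k (l ++ [a]) = F k l ++ some a :: List.replicate k none := by
  induction l with
  | nil => simp [F]
  | cons b l ih => simp [F, ih]

/-- The word with the letters of `w` at the multiples of `k + 1` and blanks elsewhere. -/
def W (k : ℕ) (w : ℕ → A) (q : ℕ) : Option A :=
  if q % (k + 1) = 0 then some (w (q / (k + 1))) else none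

theorem seg_block (k : ℕ) (w : ℕ → A) (c : ℕ) :
    seg (W k w) (c * (k + 1)) (k + 1) = some (w c) :: List.replicate k none := by
  rw [add_comm k 1, seg_add]
  have h1 : seg (W k w) (c * (1 + k)) 1 = [some (w c)] := by
    simp [seg, W, add_comm 1 k]
  have h2 : seg (W k w) (c * (1 + k) + 1) k = List.replicate k none := by
    unfold seg
    rw [List.eq_replicate_iff]
    refine ⟨by simp, ?_⟩
    intro b hb
    rw [List.mem_map] at hb
    obtain ⟨t, ht, rfl⟩ := hb
    rw [List.mem_range] at ht
    unfold W
    rw [if_neg]
    rw [add_comm 1 k, add_assoc, mul_comm, Nat.mul_add_mod, Nat.mod_eq_of_lt (by omega)]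
    omega
  rw [h1, h2]; rfl

theorem F_seg (k : ℕ) (w : ℕ → A) (c p : ℕ) (hc : 1 ≤ c) :
    F k (seg w c p) = seg (W k w) (c * (k + 1) - k) (p * (k + 1) + k) := by
  induction p with
  | zero =>
    have e0 : seg w c 0 = [] := rfl
    rw [e0, F, eq_comm, List.eq_replicate_iff]
    refine ⟨by simp [seg], ?_⟩
    intro b hb
    unfold seg at hb
    rw [List.mem_map] at hb
    obtain ⟨t, ht, rfl⟩ := hb
    rw [List.mem_range] at ht
    obtain ⟨d, rfl⟩ : ∃ d, c = d + 1 := ⟨c - 1, by omega⟩
    have e : (d + 1) * (k + 1) - k + t = (k + 1) * d + (1 + t) := by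
      have : (d + 1) * (k + 1) = (k + 1) * d + (k + 1) := by ring
      omega
    unfold W
    rw [if_neg]
    rw [e, Nat.mul_add_mod, Nat.mod_eq_of_lt (by omega)]
    omega
  | succ p ih =>
    have h1 : seg w c (p + 1) = seg w c p ++ [w (c + p)] := by
      rw [seg_add]; simp [seg]
    have h2 : (p + 1) * (k + 1) + k = (p * (k + 1) + k) + (k + 1) := by ring
    have h3 : c * (k + 1) - k + (p * (k + 1) + k) = (c + p) * (k + 1) := by
      have : k ≤ c * (k + 1) := by nlinarith
      have : (c + p) * (k + 1) = c * (k + 1) + p * (k + 1) := by ring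
      omega
    rw [h1, F_append, ih, h2, seg_add (W k w) _ (p * (k + 1) + k) (k + 1), h3, seg_block]

theorem count_seg [DecidableEq A] (w : ℕ → A) (c p : ℕ) (a : A) :
    (seg w c p).count a = ((Finset.Ico c (c + p)).filter (fun q => w q = a)).card := by
  induction p with
  | zero => simp [seg]
  | succ p ih =>
    have h1 : seg w c (p + 1) = seg w c p ++ [w (c + p)] := by
      rw [seg_add]; simp [seg]
    have h2 : Finset.Ico c (c + (p + 1)) = insert (c + p) (Finset.Ico c (c + p)) := by
      ext x; simp only [Finset.mem_Ico, Finset.mem_insert]; omega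
    rw [h1, List.count_append, ih, h2, Finset.filter_insert, List.count_singleton]
    by_cases h : w (c + p) = a
    · rw [if_pos h, Finset.card_insert_of_notMem (by simp)]
      simp [h]
    · rw [if_neg h]; simp [h]

theorem classes_finite (k : ℕ) (u : List A) : {c : Quotient (kSetoid A k) | ∃ v : List A,
    v <:+: u ∧ KPal k v ∧ c = Quotient.mk (kSetoid A k) v}.Finite := by
  apply Set.Finite.subset ((List.finite_toSet u.sublists).image (Quotient.mk (kSetoid A k)))
  rintro c ⟨v, hv, _, rfl⟩
  exact ⟨v, List.mem_sublists.2 hv.sublist, rfl⟩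

end

/-- **Main theorem.** For every `k ≥ 1` there are a finite alphabet, an infinite word `w` over it
and a constant `C > 0` such that every factor `u` of `w` of length `n ≥ 1` contains at least
`C n^2` pairwise `k`-abelian inequivalent `k`-abelian palindromes. -/
theorem result (k : ℕ) (hk : 1 ≤ k) :
    ∃ (A : Type) (_ : Finite A) (w : ℕ → A) (C : ℝ), 0 < C ∧
      ∀ i n : ℕ, 1 ≤ n → C * (n : ℝ) ^ 2 ≤ kpal k (seg w i n) := by
  obtain ⟨m, w0, C0, hC0, h0⟩ := Pool.Agent.S10129.result
  have hkr : (0 : ℝ) < 16 * (k + 1) ^ 2 := by positivity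
  refine ⟨Option (Fin m), inferInstance, W k w0, min C0 1 / (16 * (k + 1) ^ 2),
    div_pos (lt_min hC0 one_pos) hkr, ?_⟩
  intro i n hn
  set u := seg (W k w0) i n with hu
  set S := {c : Quotient (kSetoid (Option (Fin m)) k) | ∃ v : List (Option (Fin m)),
    v <:+: u ∧ KPal k v ∧ c = Quotient.mk (kSetoid (Option (Fin m)) k) v} with hS
  have hSf : S.Finite := classes_finite k u
  have hkp : kpal k u = S.ncard := rfl
  by_cases hsmall : n ≤ 4 * (k + 1)
  · -- the empty word is a palindrome
    have h1 : 1 ≤ S.ncard := by
      rw [Nat.one_le_iff_ne_zero, Ne, Set.ncard_eq_zero hSf, ← Ne, ← Set.nonempty_iff_ne_empty]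
      exact ⟨_, [], List.nil_infix, fun x _ => rfl, rfl⟩
    have h1' : (1 : ℝ) ≤ S.ncard := by exact_mod_cast h1
    rw [hkp]
    refine le_trans ?_ h1'
    rw [div_mul_eq_mul_div, div_le_one hkr]
    have h2 : (n : ℝ) ≤ 4 * (k + 1) := by exact_mod_cast hsmall
    have h3 : (n : ℝ) ^ 2 ≤ 16 * (k + 1) ^ 2 := by nlinarith [Nat.cast_nonneg (α := ℝ) n]
    have h4 : min C0 1 ≤ 1 := min_le_right _ _
    have h5 : (0 : ℝ) ≤ (n : ℝ) ^ 2 := by positivity
    nlinarith
  · -- long factors
    set s := i / (k + 1) + 2 with hs
    set M := n / (k + 1) - 2 with hM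
    have hi1 := Nat.div_add_mod i (k + 1)
    have hi2 := Nat.mod_lt i (show 0 < k + 1 by omega)
    have hn1 := Nat.div_add_mod n (k + 1)
    have hn2 := Nat.mod_lt n (show 0 < k + 1 by omega)
    have hnd : 4 ≤ n / (k + 1) := by
      rw [Nat.le_div_iff_mul_le (by omega)]; omega
    have hM2 : n / (k + 1) = M + 2 := by omega
    let Φ : Quotient (kSetoid (Option (Fin m)) k) → (Fin m → ℕ) :=
      Quotient.lift (fun v a => occ [some a] v) (by
        intro v v' h
        funext a
        exact h [some a] (by simpa using hk))
    have hsub : (((((Finset.range (M + 1)) ×ˢ (Finset.range (M + 1))).filter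
              (fun p : ℕ × ℕ => 1 ≤ p.2 ∧ p.1 + p.2 ≤ M)).image
            (fun p : ℕ × ℕ => fun a : Fin m =>
              ((Finset.Ico (s + p.1) (s + p.1 + p.2)).filter
                (fun q => w0 q = a)).card) : Finset (Fin m → ℕ)) : Set (Fin m → ℕ)) ⊆
          Φ '' S := by
      intro f hf
      rw [Finset.mem_coe, Finset.mem_image] at hf
      obtain ⟨⟨p1, p2⟩, hp, rfl⟩ := hf
      rw [Finset.mem_filter] at hp
      obtain ⟨_, hp1, hp2⟩ := hp
      simp only at hp1 hp2
      refine ⟨Quotient.mk _ (F k (seg w0 (s + p1) p2)), ⟨_, ?_, kpal_F k _, rfl⟩, ?_⟩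
      · have hs1 : 1 ≤ s + p1 := by
          rw [hs]
          exact le_trans (by norm_num) (Nat.le_add_right _ _ |>.trans' (Nat.le_add_left 2 _))
        rw [F_seg k w0 (s + p1) p2 hs1, hu]
        have e1 : (s + p1) * (k + 1) = (k + 1) * (i / (k + 1)) + 2 * (k + 1) + p1 * (k + 1) := by
          rw [hs]; ring
        have e2 : (p1 + p2) * (k + 1) ≤ M * (k + 1) := Nat.mul_le_mul_right _ hp2
        have e3 : (p1 + p2) * (k + 1) = p1 * (k + 1) + p2 * (k + 1) := by ring
        have e4 : (k + 1) * (n / (k + 1)) = M * (k + 1) + 2 * (k + 1) := by rw [hM2]; ring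
        apply seg_infix
        · omega
        · omega
      · funext a
        change occ [some a] (F k (seg w0 (s + p1) p2)) = _
        rw [occ_F, count_seg]
    have hcard : ((((Finset.range (M + 1)) ×ˢ (Finset.range (M + 1))).filter
              (fun p : ℕ × ℕ => 1 ≤ p.2 ∧ p.1 + p.2 ≤ M)).image
            (fun p : ℕ × ℕ => fun a : Fin m =>
              ((Finset.Ico (s + p.1) (s + p.1 + p.2)).filter
                (fun q => w0 q = a)).card)).card ≤ S.ncard := by
      rw [← Set.ncard_coe_finset]
      exact (Set.ncard_le_ncard hsub (hSf.image _)).trans (Set.ncard_image_le hSf)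
    have hcard' := le_trans (h0 s M) (Nat.cast_le (α := ℝ).2 hcard)
    rw [hkp]
    refine le_trans ?_ hcard'
    have r1 : (n : ℝ) ≤ 4 * (k + 1) * M := by
      have e4 : (k + 1) * (n / (k + 1)) = M * (k + 1) + 2 * (k + 1) := by rw [hM2]; ring
      have hM3 : 2 ≤ M := by omega
      have : n ≤ 4 * (k + 1) * M := by nlinarith
      exact_mod_cast this
    rw [div_mul_eq_mul_div, div_le_iff₀ hkr]
    have r2 : (n : ℝ) ^ 2 ≤ (4 * (k + 1) * M) ^ 2 := by
      apply pow_le_pow_left₀ (Nat.cast_nonneg _) r1
    have r3 : min C0 1 ≤ C0 := min_le_left _ _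
    have r4 : (0 : ℝ) ≤ (n : ℝ) ^ 2 := by positivity
    calc min C0 1 * (n : ℝ) ^ 2 ≤ C0 * (n : ℝ) ^ 2 := mul_le_mul_of_nonneg_right r3 r4
      _ ≤ C0 * (4 * (k + 1) * M) ^ 2 := mul_le_mul_of_nonneg_left r2 hC0.le
      _ = C0 * M ^ 2 * (16 * (k + 1) ^ 2) := by ring

end Pool.Agent.Results.MP_ca9ca1_co.KAbRich
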